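import Mathlib
import Pool.Agent.Y268.D3.Stm
import Pool.Agent.H839R2.Kad3.Nest
import Pool.Agent.H216R2.Kad3.Level
import Pool.Agent.H778R2.Kad3.Vmap
import Pool.Agent.H294R2.Kad2.Dix2

/-!
# Project D3: nested matrices, and the main inequality
-/

open scoped ComplexOrder InnerProductSpace ComplexConjugate Topology
open Finset Filter

noncomputable section

namespace Pool.Agent.Y232.D3

open H759R2.Kad H711R2.KG Y268.D3

/-! ### Families indexed by finite types -/

theorem qf_mem {B : Type} [CStarAlgebra B] {K : Type} [NormedAddCommGroup K]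
    [InnerProductSpace ℂ K] (w : B →ₗ[ℂ] (K →L[ℂ] K)) {κ : Type} [Fintype κ] (g : κ → B)
    (hg : IsPart g) : qf w g ∈ CB w := by
  refine subset_closure ⟨Fintype.card κ, fun i => g ((Fintype.equivFin κ).symm i), ?_, ?_⟩
  · obtain ⟨h1, h2⟩ := hg
    constructor
    · rw [← h1]
      exact Equiv.sum_comp (Fintype.equivFin κ).symm (fun s => star (g s) * g s)
    · rw [← h2]
      exact Equiv.sum_comp (Fintype.equivFin κ).symm (fun s => g s * star (g s))
  · funext ξ η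
    unfold qf
    exact (Equiv.sum_comp (Fintype.equivFin κ).symm
      (fun s => ⟪w (g s) ξ, w (g s) η⟫_ℂ)).symm

section red

variable {K : Type} [NormedAddCommGroup K] [InnerProductSpace ℂ K]

/-- The reduced form. -/
def red (q : Form (HH (Fin 2) K)) : Form K :=
  fun ξ η => (1 / 2 : ℂ) * ∑ e : Fin 2, q (inj e ξ) (inj e η)

theorem continuous_red : Continuous (red (K := K)) := by
  refine continuous_pi fun ξ => continuous_pi fun η => ?_
  refine continuous_const.mul (continuous_finsetSum _ fun e _ => ?_)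
  exact (continuous_apply (inj e η)).comp (continuous_apply (inj e ξ))

variable {N : Type} [CStarAlgebra N]

theorem amp_inj (w : N →ₗ[ℂ] (K →L[ℂ] K)) (X : CStarMatrix (Fin 2) (Fin 2) N) (e : Fin 2) (ξ : K)
    (i : Fin 2) : amp w (Fin 2) X (inj e ξ) i = w (X i e) ξ := by
  rw [amp_apply, Finset.sum_eq_single e]
  · rw [inj_apply, if_pos rfl]
  · intro j _ hj
    rw [inj_apply, if_neg hj, map_zero]
  · simp

end red

section alg

variable {N : Type} [CStarAlgebra N] [PartialOrder N] [StarOrderedRing N]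
variable {K : Type} [NormedAddCommGroup K] [InnerProductSpace ℂ K]

theorem half_mul : star (((√2 : ℝ) : ℂ)⁻¹) * ((√2 : ℝ) : ℂ)⁻¹ = 1 / 2 := by
  have h : (((√2 : ℝ) : ℂ)) * ((√2 : ℝ) : ℂ) = 2 := by
    rw [← Complex.ofReal_mul, Real.mul_self_sqrt (by norm_num)]
    norm_num
  rw [RCLike.star_def, map_inv₀, Complex.conj_ofReal, ← mul_inv, h]
  norm_num

theorem red_qf (w : N →ₗ[ℂ] (K →L[ℂ] K)) {n : ℕ} (g : Fin n → CStarMatrix (Fin 2) (Fin 2) N)
    (hg : IsPart g) : red (qf (amp w (Fin 2)) g) ∈ CB w := by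
  obtain ⟨h1, h2⟩ := hg
  obtain ⟨c, hc⟩ : ∃ c : ℂ, c = ((√2 : ℝ) : ℂ)⁻¹ := ⟨_, rfl⟩
  have hcc : star c * c = 1 / 2 := by rw [hc]; exact half_mul
  have hcc' : c * star c = 1 / 2 := by rw [mul_comm]; exact hcc
  have e0 : red (qf (amp w (Fin 2)) g) =
      qf w (fun p : Fin n × Fin 2 × Fin 2 => c • g p.1 p.2.1 p.2.2) := by
    funext ξ η
    unfold red qf
    simp only [Fintype.sum_prod_type]
    simp only [PiLp.inner_apply, amp_inj]
    rw [Finset.sum_comm, Finset.mul_sum]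
    refine Finset.sum_congr rfl fun s _ => ?_
    rw [Finset.sum_comm, Finset.mul_sum]
    refine Finset.sum_congr rfl fun i _ => ?_
    rw [Finset.mul_sum]
    refine Finset.sum_congr rfl fun e _ => ?_
    rw [map_smul, smul_apply, smul_apply, inner_smul_left, inner_smul_right,
      ← mul_assoc, ← hcc]
    rfl
  rw [e0]
  refine qf_mem w _ ⟨?_, ?_⟩
  · have e1 : ∀ p : Fin n × Fin 2 × Fin 2,
        star (c • g p.1 p.2.1 p.2.2) * (c • g p.1 p.2.1 p.2.2) =
          (1 / 2 : ℂ) • (star (g p.1 p.2.1 p.2.2) * g p.1 p.2.1 p.2.2) := by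
      intro p
      rw [star_smul, smul_mul_smul_comm, hcc]
    simp only [e1]
    rw [← Finset.smul_sum, Fintype.sum_prod_type]
    have e2 : ∀ e : Fin 2, ∑ s : Fin n, ∑ i : Fin 2, star (g s i e) * g s i e = 1 := by
      intro e
      have := congrArg (fun Y : CStarMatrix (Fin 2) (Fin 2) N => Y e e) h1
      simp only [A27.sum_apply2, CStarMatrix.mul_apply, CStarMatrix.star_apply,
        CStarMatrix.one_apply, if_true] at this
      exact this
    have e3 : ∑ s : Fin n, ∑ y : Fin 2 × Fin 2, star (g s y.1 y.2) * g s y.1 y.2 =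
        ∑ e : Fin 2, ∑ s : Fin n, ∑ i : Fin 2, star (g s i e) * g s i e := by
      rw [Finset.sum_comm (s := (univ : Finset (Fin 2)))]
      refine Finset.sum_congr rfl fun s _ => ?_
      rw [Fintype.sum_prod_type, Finset.sum_comm]
    rw [e3]
    simp only [e2]
    simp only [Finset.sum_const, Finset.card_univ, Fintype.card_fin]
    rw [← Nat.cast_smul_eq_nsmul ℂ, smul_smul]
    norm_num
  · have e1 : ∀ p : Fin n × Fin 2 × Fin 2,
        (c • g p.1 p.2.1 p.2.2) * star (c • g p.1 p.2.1 p.2.2) =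
          (1 / 2 : ℂ) • (g p.1 p.2.1 p.2.2 * star (g p.1 p.2.1 p.2.2)) := by
      intro p
      rw [star_smul, smul_mul_smul_comm, hcc']
    simp only [e1]
    rw [← Finset.smul_sum, Fintype.sum_prod_type]
    have e2 : ∀ i : Fin 2, ∑ s : Fin n, ∑ e : Fin 2, g s i e * star (g s i e) = 1 := by
      intro i
      have := congrArg (fun Y : CStarMatrix (Fin 2) (Fin 2) N => Y i i) h2
      simp only [A27.sum_apply2, CStarMatrix.mul_apply, CStarMatrix.star_apply,
        CStarMatrix.one_apply, if_true] at this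
      exact this
    have e3 : ∑ s : Fin n, ∑ y : Fin 2 × Fin 2, g s y.1 y.2 * star (g s y.1 y.2) =
        ∑ i : Fin 2, ∑ s : Fin n, ∑ e : Fin 2, g s i e * star (g s i e) := by
      rw [Finset.sum_comm (s := (univ : Finset (Fin 2)))]
      refine Finset.sum_congr rfl fun s _ => ?_
      rw [Fintype.sum_prod_type]
    rw [e3]
    simp only [e2]
    simp only [Finset.sum_const, Finset.card_univ, Fintype.card_fin]
    rw [← Nat.cast_smul_eq_nsmul ℂ, smul_smul]
    norm_num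

theorem red_mem (w : N →ₗ[ℂ] (K →L[ℂ] K)) {q : Form (HH (Fin 2) K)}
    (hq : q ∈ CB (amp w (Fin 2))) : red q ∈ CB w := by
  have h := map_mem_closure (continuous_red (K := K)) hq
    (t := CB w) (by
      rintro _ ⟨n, g, hg, rfl⟩
      exact red_qf w g hg)
  unfold CB at h ⊢
  rwa [closure_closure] at h

end alg

/-! ### Invariance under the signed permutations -/

section inv

variable {N : Type} [CStarAlgebra N] [PartialOrder N] [StarOrderedRing N]
variable {K : Type} [NormedAddCommGroup K] [InnerProductSpace ℂ K]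
variable {w : N →ₗ[ℂ] (K →L[ℂ] K)}

theorem amp_tens (hw : IsHom w) (s : Matrix (Fin 2) (Fin 2) ℂ) (z : HH (Fin 2) K) (i : Fin 2) :
    amp w (Fin 2) (tens s 1) z i = ∑ j, s i j • z j := by
  rw [amp_apply]
  refine Finset.sum_congr rfl fun j _ => ?_
  have : (tens s (1 : N)) i j = s i j • 1 := rfl
  rw [this, map_smul, hw.one]
  rfl

theorem amp_mD (hw : IsHom w) (z : HH (Fin 2) K) :
    amp w (Fin 2) (mD N) z = inj 0 (z 0) - inj 1 (z 1) := by
  ext i
  unfold mD
  rw [amp_tens hw, Fin.sum_univ_two, PiLp.sub_apply, inj_apply, inj_apply]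
  fin_cases i <;> simp

theorem amp_mP (hw : IsHom w) (ξ : K) :
    amp w (Fin 2) (mP N) (inj 0 ξ) = inj 1 ξ := by
  ext i
  unfold mP
  rw [amp_tens hw, Fin.sum_univ_two, inj_apply, inj_apply, inj_apply]
  fin_cases i <;> simp

theorem IsForm.add_left {q : Form K} {C : ℝ} (hq : IsForm q C) (ξ ξ' η : K) :
    q (ξ + ξ') η = q ξ η + q ξ' η := by
  rw [hq.herm η (ξ + ξ'), hq.add, map_add, ← hq.herm, ← hq.herm]

theorem IsForm.neg_right {q : Form K} {C : ℝ} (hq : IsForm q C) (ξ η : K) :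
    q ξ (-η) = - q ξ η := by
  have := hq.smul (-1) ξ η
  simpa using this

theorem IsForm.neg_left {q : Form K} {C : ℝ} (hq : IsForm q C) (ξ η : K) :
    q (-ξ) η = - q ξ η := by
  rw [hq.herm η (-ξ), IsForm.neg_right hq, map_neg, ← hq.herm]

theorem split (hw : IsHom w) {q : Form (HH (Fin 2) K)} {C : ℝ} (hq : IsForm q C)
    (hD : act (amp w (Fin 2)) (mD N) q = q) (hP : act (amp w (Fin 2)) (mP N) q = q)
    (z z' : HH (Fin 2) K) : q z z' = ∑ e, red q (z e) (z' e) := by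
  have h1 : ∀ ξ η, q (inj 1 ξ) (inj 1 η) = q (inj 0 ξ) (inj 0 η) := by
    intro ξ η
    have := congrFun (congrFun hP (inj 0 ξ)) (inj 0 η)
    unfold act at this
    rwa [amp_mP hw, amp_mP hw] at this
  have h2 : ∀ ξ η, red q ξ η = q (inj 0 ξ) (inj 0 η) := by
    intro ξ η
    unfold red
    rw [Fin.sum_univ_two, h1]
    ring
  have h3 : ∀ v : HH (Fin 2) K, inj 0 (v 0) + inj 1 (v 1) = v := by
    intro v
    have := sum_inj v
    rwa [Fin.sum_univ_two] at this
  have h4 := congrFun (congrFun hD z) z'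
  unfold act at h4
  rw [amp_mD hw, amp_mD hw, sub_eq_add_neg, sub_eq_add_neg, IsForm.add_left hq, hq.add, hq.add,
    IsForm.neg_left hq, IsForm.neg_left hq, IsForm.neg_right hq, IsForm.neg_right hq] at h4
  have h5 : q z z' = q (inj 0 (z 0)) (inj 0 (z' 0)) + q (inj 0 (z 0)) (inj 1 (z' 1)) +
      (q (inj 1 (z 1)) (inj 0 (z' 0)) + q (inj 1 (z 1)) (inj 1 (z' 1))) := by
    rw [← hq.add, ← hq.add, ← IsForm.add_left hq, h3, h3]
  rw [Fin.sum_univ_two, h2, h2, ← h1 (z 1) (z' 1)]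
  linear_combination (1 / 2 : ℂ) * h5 - (1 / 2 : ℂ) * h4

end inv

/-! ### Flattening -/

section flat

variable {N : Type} [CStarAlgebra N] [PartialOrder N] [StarOrderedRing N]
variable {K : Type} [NormedAddCommGroup K] [InnerProductSpace ℂ K]

theorem qa_flat {q : Form (HH (Fin 2) K)} {r : Form K}
    (h : ∀ z z', q z z' = ∑ e, r (z e) (z' e)) (k : ℕ) (ζ : HH (Fin k) (HH (Fin 2) K)) :
    qa q ζ ζ = qa r (A27.flatv k 2 ζ) (A27.flatv k 2 ζ) := by
  unfold qa
  rw [← Equiv.sum_comp (finProdFinEquiv (m := k) (n := 2)), Fintype.sum_prod_type]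
  refine Finset.sum_congr rfl fun j _ => ?_
  rw [h]
  refine Finset.sum_congr rfl fun b _ => ?_
  rw [A27.flatv_apply]
  simp

theorem inner_flatv (k : ℕ) (ζ η : HH (Fin k) (HH (Fin 2) K)) :
    ⟪A27.flatv k 2 ζ, A27.flatv k 2 η⟫_ℂ = ⟪ζ, η⟫_ℂ := by
  rw [PiLp.inner_apply, PiLp.inner_apply]
  rw [← Equiv.sum_comp (finProdFinEquiv (m := k) (n := 2)), Fintype.sum_prod_type]
  refine Finset.sum_congr rfl fun j _ => ?_
  rw [PiLp.inner_apply]
  refine Finset.sum_congr rfl fun b _ => ?_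
  rw [A27.flatv_apply, A27.flatv_apply]
  simp

/-- Nesting of matrices. -/
def nestFun (k : ℕ) (X : CStarMatrix (Fin (k * 2)) (Fin (k * 2)) N) :
    CStarMatrix (Fin k) (Fin k) (CStarMatrix (Fin 2) (Fin 2) N) :=
  CStarMatrix.ofMatrix fun i j => CStarMatrix.ofMatrix fun a b =>
    X (finProdFinEquiv (i, a)) (finProdFinEquiv (j, b))

theorem nestFun_apply (k : ℕ) (X : CStarMatrix (Fin (k * 2)) (Fin (k * 2)) N) (i j : Fin k)
    (a b : Fin 2) : nestFun k X i j a b = X (finProdFinEquiv (i, a)) (finProdFinEquiv (j, b)) :=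
  rfl

theorem flat_nest (k : ℕ) (X : CStarMatrix (Fin (k * 2)) (Fin (k * 2)) N) :
    A27.flat N k 2 (nestFun k X) = X := by
  ext p q
  rw [A27.flat_apply, nestFun_apply]
  change X (finProdFinEquiv (finProdFinEquiv.symm p)) (finProdFinEquiv (finProdFinEquiv.symm q)) = _
  rw [Equiv.apply_symm_apply, Equiv.apply_symm_apply]

theorem flat_inj (k : ℕ) : Function.Injective (A27.flat N k 2) := by
  intro X Y h
  ext i j a b
  have := congrArg (fun Z : CStarMatrix (Fin (k * 2)) (Fin (k * 2)) N =>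
    Z (finProdFinEquiv (i, a)) (finProdFinEquiv (j, b))) h
  simp only [A27.flat_apply, Equiv.symm_apply_apply] at this
  exact this

theorem norm_nest (k : ℕ) (X : CStarMatrix (Fin (k * 2)) (Fin (k * 2)) N) :
    ‖nestFun k X‖ = ‖X‖ := by
  have h := NonUnitalStarAlgHom.norm_map (A27.flat N k 2) (flat_inj k) (nestFun k X)
  rw [flat_nest] at h
  exact h.symm

/-- Nesting of vectors. -/
def nestv (k : ℕ) (ζ : HH (Fin (k * 2)) K) : HH (Fin k) (HH (Fin 2) K) :=
  WithLp.toLp 2 fun i => WithLp.toLp 2 fun a => ζ (finProdFinEquiv (i, a))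

theorem flatv_nestv (k : ℕ) (ζ : HH (Fin (k * 2)) K) : A27.flatv k 2 (nestv k ζ) = ζ := by
  ext p
  rw [A27.flatv_apply]
  change ζ (finProdFinEquiv (finProdFinEquiv.symm p)) = _
  rw [Equiv.apply_symm_apply]

end flat

theorem vmap_amp {N : Type} [CStarAlgebra N] [PartialOrder N] [StarOrderedRing N]
    {K : Type} [NormedAddCommGroup K] [InnerProductSpace ℂ K] [CompleteSpace K]
    (w : N →ₗ[ℂ] (K →L[ℂ] K)) : vmap (amp w (Fin 2)) = amp (vmap w) (Fin 2) := by
  refine LinearMap.ext fun X => ?_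
  rw [(prove3_vmap.{0, 0} N K w).1 (Fin 2) X, vmap_apply]

theorem prove_unnest : S_cb → S_unnest := by
  intro hcb N _ _ _ K _ _ _ w hw γ hγ hb q₁ hq₁ q₂ hq₂ hD₁ hP₁ hD₂ hP₂ k κ hκ H
  -- the second form
  have hA := H294R2.Kad2.amp_isHom (ι := Fin 2) hw
  obtain ⟨-, -, -, hf₂, -, -⟩ := hcb _ _ (amp w (Fin 2)) hA γ hγ hb
  have hs₂ := split hw (hf₂ q₂ hq₂) hD₂ hP₂
  -- the first form
  have hw' : IsHom (vmap w) := hw.vmap
  have hA' := H294R2.Kad2.amp_isHom (ι := Fin 2) hw'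
  rw [vmap_amp] at hq₁ hD₁ hP₁
  have hb' : ∀ Y, ‖amp (vmap w) (Fin 2) Y‖ ≤ γ * ‖Y‖ := by
    rw [← vmap_amp]
    exact (prove3_vmap.{0, 0} _ _ (amp w (Fin 2))).2.2 γ hb
  obtain ⟨-, -, -, hf₁, -, -⟩ := hcb _ _ (amp (vmap w) (Fin 2)) hA' γ hγ hb'
  have hs₁ := split hw' (hf₁ q₁ hq₁) hD₁ hP₁
  refine ⟨red q₁, red_mem (vmap w) hq₁, red q₂, red_mem w hq₂, fun X ζ η => ?_⟩
  have h := H (nestFun k X) (nestv k ζ) (nestv k η)
  rw [qa_flat hs₂, qa_flat hs₁, norm_nest, ← inner_flatv, A27.flatv_amp,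
    ← A27.norm_flatv k 2 (nestv k ζ), ← A27.norm_flatv k 2 (nestv k η)] at h
  simp only [flatv_nestv] at h
  have e : A27.flatFun k 2 (nestFun k X) = X := flat_nest k X
  rw [e] at h
  exact h

theorem prove_CT : S_M2 → S_all3 → S_unnest → S_CT := by
  intro _ hall hun N _ _ _ τ hτ hdix horth K _ _ _ w hw γ hγ L m hm hL hlv
  have hγ0 : 0 ≤ γ := by linarith
  have hL0 : 0 < L := by
    have h1 : (1 : ℝ) ≤ m := by exact_mod_cast hm
    have h2 : (1 : ℝ) ≤ (m : ℝ) ^ 11 := one_le_pow₀ h1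
    have h3 : (1 : ℝ) ≤ γ ^ 6 := one_le_pow₀ hγ
    have h4 : (0 : ℝ) < L := by
      refine lt_of_lt_of_le ?_ hL
      positivity
    exact_mod_cast h4
  have hA := H294R2.Kad2.amp_isHom (ι := Fin 2) hw
  have hb : ∀ Y : CStarMatrix (Fin 2) (Fin 2) N, ‖amp w (Fin 2) Y‖ ≤ γ * ‖Y‖ :=
    prove3_level.{0, 0} N K w (L * 2) γ hγ0 hlv (Fin 2) (by
      rw [Fintype.card_fin]
      omega)
  have hlv' : LvlBd (amp w (Fin 2)) L γ := prove3_nest.{0, 0} N K w 2 L γ hγ0 hlv
  obtain ⟨q₁, hq₁, q₂, hq₂, hD₁, hP₁, hD₂, hP₂, H⟩ :=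
    hall N τ hτ hdix horth (HH (Fin 2) K) (amp w (Fin 2)) hA γ hγ hb L m hm hL hlv'
  exact hun N K w hw γ hγ0 hb q₁ hq₁ q₂ hq₂ hD₁ hP₁ hD₂ hP₂ (m * L) (10000 * γ ^ 2)
    (by positivity) H

end Pool.Agent.Y232.D3
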